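import Pool.Agent.H92T.PairsH
import Pool.Agent.H92G.Loc

/-!
# The product of a group of characters with a fixed group, and the counting of pairs
-/

set_option autoImplicit false
set_option linter.unusedSectionVars false

namespace Pool.Agent.H92T

open Finset NumberField IsDedekindDomain
open Pool.Agent.K4H55.BI Pool.Agent.K4H55.CX
open Pool.Agent.H92 Pool.Agent.H92P Pool.Agent.H92G

variable {K : Type} [Field K] [NumberField K] [hP : IsPrincipalIdealRing (𝓞 K)]

open Classical in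
/-- the group of the characters `χ_g ψ_u` -/
lemma cg_prod {X Y : Type} [CommGroup X] [CommGroup Y]
    {T : X → Finset (HeightOneSpectrum (𝓞 K))} {χ : X → 𝓞 K → ℂ} (hχ : CGp T χ)
    {R : Y → Finset (HeightOneSpectrum (𝓞 K))} {ψ : Y → 𝓞 K → ℂ} (hψ : CGp R ψ)
    (hd : ∀ g u, Disjoint (T g) (R u)) :
    CGp (fun z : X × Y => T z.1 ∪ R z.2) (fun z x => χ z.1 x * ψ z.2 x) := by
  refine ⟨fun z => cp_mul (hχ.ch z.1) (hψ.ch z.2) (hd _ _), fun z z' x h1 h2 => ?_⟩
  show χ (z.1 * z'.1) x * ψ (z.2 * z'.2) x = _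
  rw [hχ.mul _ _ _ (left_ne_zero_of_mul h1) (left_ne_zero_of_mul h2),
    hψ.mul _ _ _ (right_ne_zero_of_mul h1) (right_ne_zero_of_mul h2)]
  ring

/-- the counting of pairs from the covering by translates -/
lemma count_pairs {X : Type} [CommGroup X] {T : X → Finset (HeightOneSpectrum (𝓞 K))}
    {χ : X → 𝓞 K → ℂ} (hχ : CGp T χ) (hinj : Function.Injective χ) {e : ℕ} (he : 0 < e)
    (hX : ∀ g : X, g ^ e = 1) (P : X × X → Prop) (𝒦 : Finset (X × X))
    (h𝒦 : ∀ g : X × X, ∃ k ∈ 𝒦, P (g * k)) :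
    ∃ C : ℕ, ∀ N : ℕ, {g : X × X | cn (T g.1) ≤ N ∧ cn (T g.2) ≤ N}.ncard ≤
      C * {g : X × X | (cn (T g.1) ≤ C * N ∧ cn (T g.2) ≤ C * N) ∧ P g}.ncard := by
  classical
  choose k hk hPk using h𝒦
  set C₁ := 𝒦.sup fun k => max (cn (T k.1)) (cn (T k.2)) with hC₁
  set C := max C₁ 𝒦.card with hC
  refine ⟨C, fun N => ?_⟩
  have hfin : ∀ N, {g : X × X | cn (T g.1) ≤ N ∧ cn (T g.2) ≤ N}.Finite := fun N =>
    ((fin_cond hχ hinj he hX N).prod (fin_cond hχ hinj he hX N)).subset fun g hg => hg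
  set A := (hfin N).toFinset with hA
  have hBf : {g : X × X | (cn (T g.1) ≤ C * N ∧ cn (T g.2) ≤ C * N) ∧ P g}.Finite :=
    (hfin (C * N)).subset fun g hg => hg.1
  set B := hBf.toFinset with hB
  have hmaps : ∀ g ∈ A, g * k g ∈ B := by
    intro g hg
    rw [hA, Set.Finite.mem_toFinset] at hg
    obtain ⟨hg1, hg2⟩ := hg
    rw [hB, Set.Finite.mem_toFinset]
    have h2 : max (cn (T (k g).1)) (cn (T (k g).2)) ≤ C₁ :=
      Finset.le_sup (f := fun k : X × X => max (cn (T k.1)) (cn (T k.2))) (hk g)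
    have h3 := (le_max_left _ _).trans (h2.trans (le_max_left C₁ 𝒦.card))
    have h4 := (le_max_right _ _).trans (h2.trans (le_max_left C₁ 𝒦.card))
    refine ⟨⟨?_, ?_⟩, hPk g⟩
    · calc cn (T (g.1 * (k g).1)) ≤ cn (T g.1) * cn (T (k g).1) :=
            cn_union _ _ _ (hχ.supp g.1 (k g).1)
        _ ≤ N * C := Nat.mul_le_mul hg1 h3
        _ = C * N := Nat.mul_comm _ _
    · calc cn (T (g.2 * (k g).2)) ≤ cn (T g.2) * cn (T (k g).2) :=
            cn_union _ _ _ (hχ.supp g.2 (k g).2)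
        _ ≤ N * C := Nat.mul_le_mul hg2 h4
        _ = C * N := Nat.mul_comm _ _
  have hfib : ∀ y ∈ B, (A.filter fun g => g * k g = y).card ≤ 𝒦.card := by
    intro y _
    refine Finset.card_le_card_of_injOn (fun g => k g) (fun g hg => hk g) ?_
    intro g hg g' hg' h
    have h1 : g * k g = y := (mem_filter.1 hg).2
    have h2 : g' * k g' = y := (mem_filter.1 hg').2
    have h3 : k g = k g' := h
    rw [← h2, h3] at h1
    exact mul_right_cancel h1
  have h1 := Finset.card_le_mul_card_image_of_maps_to hmaps 𝒦.card hfib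
  rw [Set.ncard_eq_toFinset_card _ (hfin N), Set.ncard_eq_toFinset_card _ hBf]
  exact h1.trans (Nat.mul_le_mul_right _ (le_max_right _ _))

end Pool.Agent.H92T
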