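import Pool.Agent.H92T.PairsG

/-!
# Theta series and pairs of characters of any finite order
-/

set_option autoImplicit false
set_option linter.unusedSectionVars false

namespace Pool.Agent.H92T

open NumberField IsDedekindDomain Matrix
open scoped Pointwise Kronecker
open Pool.Agent.K4H55.BI (IQ gen gen_span gen_dvd gen_prime gen_na)
open Pool.Agent.K4H55.BD (nv_cases uniq_over pv fin_over low mem_low bad_fin int_mem cjK cjK_cjK
  tau tv mem_tv tau_tau norm_eq mul_tau)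
open Pool.Agent.K4H55.CX (efx)
open Pool.Agent.R431.B (FrobSet frob_iff frob_nonempty frob_conj trans_over frob_stab inc inc_inj
  exists_place cpow_quad)
open Pool.Agent.K4H15.BT (Eig det_eig cM cM_mul cM_one frobM frobM_single quad_fac exists_eig
  frobM_conj quad_sandwich cM_inv cM_inv')
open Pool.Agent.K4H15.BZ Pool.Agent.K4H15.BY
open Pool.Agent.H92 Pool.Agent.H92P

variable {K F : Type} [Field K] [NumberField K] [Field F] [NumberField F] [Algebra K F]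
  [IsPrincipalIdealRing (𝓞 K)] {σ : K →+* ℂ} {δ : K}

lemma CP_norm {T : Finset (HeightOneSpectrum (𝓞 K))} {χ : 𝓞 K → ℂ} (h : CP T χ) (x : 𝓞 K) :
    ‖χ x‖ = 1 ∨ χ x = 0 := by
  by_cases h0 : χ x = 0
  · exact Or.inr h0
  · obtain ⟨k, hk0, hk⟩ := h.pow
    exact Or.inl (Complex.norm_eq_one_of_pow_eq_one (hk x h0) hk0.ne')

lemma CP_assoc {T : Finset (HeightOneSpectrum (𝓞 K))} {χ : 𝓞 K → ℂ} (h : CP T χ) {x y : 𝓞 K}
    (hxy : Associated x y) : χ x = χ y := by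
  obtain ⟨u, rfl⟩ := hxy
  rw [h.mul, h.unit _ u.isUnit, mul_one]

lemma CP_gen_tv (h : IQ K σ δ) {T : Finset (HeightOneSpectrum (𝓞 K))} {χ : 𝓞 K → ℂ}
    (hχ : CP T χ) (w : HeightOneSpectrum (𝓞 K)) : χ (gen (tv h w)) = χ (tau h (gen w)) := by
  apply CP_assoc hχ
  rw [← Ideal.span_singleton_eq_span_singleton, gen_span, tau_gen]

section pair

variable {N : ℕ} {a b n : 𝓞 K} {c : Ideal (𝓞 K) → ℂ} {A : ℕ → ℂ}
  {ρg ρh : (F ≃ₐ[ℚ] F) →* GL (Fin 2) ℂ} {ρ : (F ≃ₐ[ℚ] F) →* GL (Fin 2 × Fin 2) ℂ}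
  {X : Type} [CommGroup X] {T : X → Finset (HeightOneSpectrum (𝓞 K))} {χ : X → 𝓞 K → ℂ}

/-- **The `L`-function of the triple product of two theta series** -/
theorem pair_mainG (h : IQ K σ δ) [IsGalois ℚ F] (hcomm : ∀ s t : F ≃ₐ[K] F, s * t = t * s)
    {P : HeightOneSpectrum (𝓞 K) → Prop}
    (hP : ∀ v, P v → 2 * (4 * a ^ 3 + 27 * b ^ 2) ∉ v.asIdeal)
    (hAR : ARg K F P) (hCG : CGp T χ) (hT : ∀ x, ∀ v ∈ T x, P v)
    {γ : X → X} (hγ : ∀ x z, χ (γ x) z = χ x (tau h z)) {x y : X}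
    (hx : Th K T χ ρg x) (hy : Th K T χ ρh y)
    (hNV : ∀ z ∈ ({x * y, x * γ y} : Set X), ∃ G : ℂ → ℂ, Differentiable ℂ G ∧
      (∀ s : ℂ, 2 < s.re → HasProd (efx n c (χ z) s) (G s)) ∧ G 1 ≠ 0)
    {m : ℤ} (hm : 2 * (4 * a ^ 3 + 27 * b ^ 2) = (m : 𝓞 K))
    (hc : ∀ v : HeightOneSpectrum (𝓞 K), 2 * (4 * a ^ 3 + 27 * b ^ 2) ∉ v.asIdeal →
      n ∉ v.asIdeal ∧ c v.asIdeal = (Ideal.absNorm v.asIdeal : ℂ) - pv a b v)
    (hur : ∀ w : HeightOneSpectrum (𝓞 K), 2 * (4 * a ^ 3 + 27 * b ^ 2) ∈ w.asIdeal →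
      ∀ p : ℕ, p.Prime → (p : 𝓞 K) ∈ w.asIdeal → (p : 𝓞 K) ∉ w.asIdeal ^ 2)
    (hn : n = (N : 𝓞 K))
    (hA : ∀ p : ℕ, p.Prime → ¬ (p : ℤ) ∣ m → ¬ p ∣ N ∧ ∃ k : ℕ, k ≤ 2 * p ∧ A p = p - k)
    (hc1 : ∀ p : ℕ, p.Prime → ∀ w : HeightOneSpectrum (𝓞 K), (p : 𝓞 K) ∈ w.asIdeal →
      Ideal.absNorm w.asIdeal = p → c w.asIdeal = A p)
    (hc2 : ∀ p : ℕ, p.Prime → ∀ w : HeightOneSpectrum (𝓞 K), (p : 𝓞 K) ∈ w.asIdeal →
      Ideal.absNorm w.asIdeal = p ^ 2 → c w.asIdeal = A p ^ 2 - (if p ∣ N then 0 else 2 * (p : ℂ)))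
    (hρ : ∀ s α, (1 - α • cM (ρ s)).det = kp (cM (ρg s)).trace (cM (ρg s)).det
      (cM (ρh s)).trace (cM (ρh s)).det α) :
    ∃ L : ℂ → ℂ, MeromorphicOn L Set.univ ∧
      (∀ V : Nat.Primes → HeightOneSpectrum (𝓞 F),
        (∀ p : Nat.Primes, ((p : ℕ) : 𝓞 F) ∈ (V p).asIdeal) → ∀ s : ℂ, 2 < s.re →
        HasProd (fun p : Nat.Primes => eulQ A N ρ (V p) s p) (L s)) ∧
      AnalyticAt ℂ L 1 ∧ L 1 ≠ 0 := by
  classical
  obtain ⟨s, hs⟩ := exists_cx (F := F) h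
  obtain ⟨hx0, ψ, w, hw, hψ, hψ2⟩ := hx
  obtain ⟨hy0, φ, w', hw', hφ, hφ2⟩ := hy
  obtain ⟨b1, ψ', hb1, hψ'⟩ := theta_basis h hx0 hw hψ hs
  obtain ⟨b2, φ', hb2, hφ'⟩ := theta_basis h hy0 hw' hφ hs
  -- the law for the conjugate character
  have hlaw : ∀ v : HeightOneSpectrum (𝓞 F), low (K := K) v ∉ T (γ y) → ∀ t : F ≃ₐ[K] F,
      (∀ z : 𝓞 F, t • z - z ^ Ideal.absNorm (low (K := K) v).asIdeal ∈ v.asIdeal) →
      φ' t = χ (γ y) (gen (low (K := K) v)) := by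
    intro v hv t ht
    obtain ⟨t', ht'⟩ : ∃ t' : F ≃ₐ[K] F, inc K F t' = s⁻¹ * inc K F t * s := by
      apply range_fix
      rw [mul_assoc]
      exact Cx.mul h (Cx.inv h hs) (Fx.mul_cx h (fx_inc t) hs)
    rw [hφ' t t' ht', hγ, ← CP_gen_tv h (hCG.ch y), ← low_cv h (Cx.inv h hs)]
    apply hφ2
    · rw [low_cv h (Cx.inv h hs)]
      intro h1
      have h2 : χ (γ y) (gen (low (K := K) v)) = 0 := by
        rw [hγ, (hCG.ch y).zero]
        refine ⟨_, h1, ?_⟩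
        rw [mem_tv, tau_tau]
        exact gen_dvd.1 dvd_rfl
      obtain ⟨v', hv', h3⟩ := ((hCG.ch (γ y)).zero _).1 h2
      have h4 : v' = low (K := K) v := gen_na (gen_dvd.2 h3)
      exact hv (h4 ▸ hv')
    · intro z
      rw [low_cv h (Cx.inv h hs), norm_tv, mem_cv, inv_inv, smul_sub, smul_pow']
      have h1 := ht (s • z)
      have h2 : s • (t' • z) = t • (s • z) := by
        have h3 : inc K F t' • z = t' • z := rfl
        have h4 : inc K F t • (s • z) = t • (s • z) := rfl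
        rw [← h3, ← h4, ht', ← mul_smul, ← mul_smul]
        congr 1
        group
      rw [h2]
      exact h1
  refine an_mainG (ρg := ρg) (ρh := ρh) h hcomm hP hAR (hb := hb1) (hb' := hb2)
    (X' := ![χ (x * y), χ (x * γ y)]) (fun i z => ?_)
    (T'' := T x ∪ T y ∪ T (γ y)) (fun v hv => ?_) (fun i v hv t ht => ?_) (fun i => ?_) hm hc hur
    hn hA hc1 hc2 (fun s hs => trace_irr' h hcomm hx0 s hs) hρ
  · fin_cases i
    · exact CP_norm (hCG.ch _) z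
    · exact CP_norm (hCG.ch _) z
  · simp only [Finset.mem_union] at hv
    rcases hv with (hv | hv) | hv
    · exact hT _ v hv
    · exact hT _ v hv
    · exact hT _ v hv
  · simp only [Finset.mem_union, not_or] at hv
    obtain ⟨⟨h1, h2⟩, h3⟩ := hv
    have hne : ∀ z : X, low (K := K) v ∉ T z → χ z (gen (low (K := K) v)) ≠ 0 := by
      intro z hz h4
      obtain ⟨v', hv', h5⟩ := ((hCG.ch z).zero _).1 h4
      have h6 : v' = low (K := K) v := gen_na (gen_dvd.2 h5)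
      exact hz (h6 ▸ hv')
    fin_cases i
    · show ψ t * φ t = χ (x * y) _
      rw [hCG.mul _ _ _ (hne x h1) (hne y h2), hψ2 v h1 t ht, hφ2 v h2 t ht]
    · show ψ t * φ' t = χ (x * γ y) _
      rw [hCG.mul _ _ _ (hne x h1) (hne _ h3), hψ2 v h1 t ht, hlaw v h3 t ht]
  · fin_cases i
    · exact hNV _ (by simp)
    · exact hNV _ (by simp)

end pair

end Pool.Agent.H92T
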